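import Pool.Agent.NH14.PC.Asm
import Pool.Agent.NH14.PC.Up
import Pool.Agent.NH14.PC.Lo
import Pool.Agent.NH14.PC.Ppg
import Pool.Agent.NH14.PC.Du
import Pool.Agent.NH14.PC.Cx
import Pool.Agent.NH14.PC.Wt
import Pool.Agent.NH14.PC.Int

/-!
# Convolvers of groups with a free subgroup, and their involution

Let `G` be a discrete group containing a free group of rank two. For every `p ∈ (1,∞)`, `p ≠ 2`, there is a
`p`-convolver `f` whose involution `f*(x) = conj f(x⁻¹)` is not a `p`-convolver. More precisely, for every interval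
`J ⊆ (1,∞)` (of any kind) there is `f ≥ 0` on `G` such that the set of the exponents `s ∈ (1,∞)` for which `f` is an
`s`-convolver is exactly `J`; the set for `f*` is then the set of the conjugate exponents.

Idea: `(∑_{i ≤ N} δ_{a^i}) * (1/M ∑_{k ≤ M} δ_{b^k})` has norm of exact order `N^(1/s)` on `ℓ^s(G)` when `M` is large,
by a ping-pong partition of `G`; one sums such blocks, and the involution of a sum of blocks.
-/

set_option autoImplicit false

namespace Pool.Agent.Results.MP_830418_an.FreeSubgroups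

/-- `f` is an `s`-convolver: `‖f * ξ‖_s ^ s ≤ C ‖ξ‖_s ^ s` for all finitely supported `ξ`, where
`(f * ξ)(g) = ∑_k f(g k⁻¹) ξ(k)` -/
def Convolver {G : Type} [Group G] (s : ℝ) (f : G → ℂ) : Prop :=
  ∃ C : ℝ, ∀ ξ : G →₀ ℂ,
    Summable (fun g : G => ‖∑ k ∈ ξ.support, f (g * k⁻¹) * ξ k‖ ^ s) ∧
    ∑' g : G, ‖∑ k ∈ ξ.support, f (g * k⁻¹) * ξ k‖ ^ s ≤ C * ∑ k ∈ ξ.support, ‖ξ k‖ ^ s

/-- the involution `f*(x) = conj f(x⁻¹)` -/
noncomputable def invol {G : Type} [Group G] (f : G → ℂ) (x : G) : ℂ := starRingEnd ℂ (f x⁻¹)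

theorem result (G : Type) [Group G] (φ : FreeGroup (Fin 2) →* G) (hφ : Function.Injective φ) :
    (∀ p : ℝ, 1 < p → p ≠ 2 → ∃ f : G → ℂ, Convolver p f ∧ ¬ Convolver p (invol f)) ∧
    ∀ J : Set ℝ, J ⊆ Set.Ioi 1 → J.OrdConnected →
      ∃ f : G → ℂ, (∀ x, ∃ t : ℝ, 0 ≤ t ∧ f x = t) ∧
        ∀ s : ℝ, 1 < s → (Convolver s f ↔ s ∈ J) ∧ (Convolver s (invol f) ↔ s / (s - 1) ∈ J) := by
  have main : ∀ J : Set ℝ, J ⊆ Set.Ioi 1 → J.OrdConnected →
      ∃ f : G → ℂ, (∀ x, ∃ t : ℝ, 0 ≤ t ∧ f x = t) ∧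
        ∀ s : ℝ, 1 < s → (Convolver s f ↔ s ∈ J) ∧ (Convolver s (invol f) ↔ s / (s - 1) ∈ J) := by
    intro J hJ hJ'
    obtain ⟨F, hF, h⟩ := Pool.Agent.NH14.PC.Asm.interval Pool.Agent.NH14.PC.t_PPG
      Pool.Agent.NH14.PC.t_UP Pool.Agent.NH14.PC.t_LO Pool.Agent.NH14.PC.t_WT
      Pool.Agent.NH14.PC.t_DU Pool.Agent.NH14.PC.t_INT φ hφ J hJ hJ'
    refine ⟨fun x => (((F x).toReal : ℝ) : ℂ), fun x => ⟨(F x).toReal, ENNReal.toReal_nonneg, rfl⟩,
      fun s hs => ⟨?_, ?_⟩⟩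
    · rw [← h s hs]
      exact Pool.Agent.NH14.PC.t_CX G F hF s hs.le
    · rw [← h _ (Pool.Agent.NH14.PC.Asm.conj_gt hs),
        ← Pool.Agent.NH14.PC.Asm.DU_iff Pool.Agent.NH14.PC.t_DU hF hs]
      have h1 := Pool.Agent.NH14.PC.t_CX G (fun x => F x⁻¹) (fun x => hF _) s hs.le
      have h2 : invol (fun x => (((F x).toReal : ℝ) : ℂ)) =
          fun x => (((F x⁻¹).toReal : ℝ) : ℂ) := by
        funext x
        exact Complex.conj_ofReal _
      rw [h2]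
      exact h1
  refine ⟨fun p hp hp2 => ?_, main⟩
  obtain ⟨f, -, h⟩ := main {p} (by intro x hx; rw [Set.mem_singleton_iff.1 hx]; exact hp)
    Set.ordConnected_singleton
  refine ⟨f, (h p hp).1.2 rfl, fun h1 => ?_⟩
  have h2 := (h p hp).2.1 h1
  rw [Set.mem_singleton_iff, div_eq_iff (by linarith)] at h2
  apply hp2
  have h3 : p * (p - 2) = 0 := by linarith
  rcases mul_eq_zero.1 h3 with h4 | h4
  · linarith
  · linarith

end Pool.Agent.Results.MP_830418_an.FreeSubgroups
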